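import Pool.Agent.helper41.CL.AllE

/-!
# MP_d9d598_co: cliques with no common vertex just above the Turan threshold, all `k ≥ 3` and all `n ≤ 3 k - 3`

`counts n k` is the set of the numbers of copies of `K_k` in the graphs with `n` vertices and `t_{k-1}(n) + 1` edges whose copies of
`K_k` have no common vertex; `target n k` is the number `(|V_1| + |V_2| - 2) |V_3| ... |V_(k-1)|` of the problem. For `n ≤ 3 k - 3` all
parts of the Turan graph have at most three vertices.
-/

set_option autoImplicit false

namespace Pool.Agent.Results.MP_d9d598_co.SmallParts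

open Finset Pool.Agent.helper41.CL

/-- The least number of copies of `K_k` for `k + 2 ≤ n ≤ 3 k - 3`: `2^(n-k-3) (3k-n+6)` if `n ≤ 2k-2`, the least integer
`≥ 2^(k-5) (k+10)` if `n = 2k-1`, and `4 * 3^(n-2k) * 2^(3k-3-n)` if `n ≥ 2k`. -/
def least (n k : ℕ) : ℕ :=
  if n ≤ 2 * k - 2 then 2 ^ (n - k) * (3 * k - n + 6) / 8
  else if n = 2 * k - 1 then (2 ^ k * (k + 10) + 31) / 32
  else 4 * 3 ^ (n - 2 * k) * 2 ^ (3 * k - 3 - n)

/-- For `k ≥ 3` and `n ≤ 3 k - 3` the statement of the problem is true, and the exact minimum is `least n k`: there is no graph as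
in the problem for `n ≤ k + 1`; for `k + 2 ≤ n ≤ 3 k - 3` the least number of copies of `K_k` is `least n k`, it is at least
`target n k`, and it is equal to `target n k` if and only if `2 k ≤ n`. -/
theorem result (k n : ℕ) (hk : 3 ≤ k) (hn : n ≤ 3 * k - 3) :
    (n ≤ k + 1 → counts n k = ∅) ∧
    (k + 2 ≤ n → IsLeast (counts n k) (least n k) ∧ target n k ≤ least n k ∧ (target n k = least n k ↔ 2 * k ≤ n)) := by
  obtain ⟨h1, h2, h3, h4, h5⟩ := Main3 AllE_TC TA TB k n hk hn
  refine ⟨h1, fun h => ?_⟩
  have hL : IsLeast (counts n k) (least n k) := by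
    unfold least
    by_cases ha : n ≤ 2 * k - 2
    · rw [if_pos ha]; exact h2 h ha
    · rw [if_neg ha]
      by_cases hb : n = 2 * k - 1
      · rw [if_pos hb]; exact h3 hb
      · rw [if_neg hb]
        obtain ⟨h6, h7⟩ := h4 (by omega)
        rw [← h6]
        exact h7
  obtain ⟨h6, h7⟩ := h5 _ hL.1
  refine ⟨hL, h6, fun he => ?_, fun he => ?_⟩
  · by_contra hne
    have := h7 (by omega)
    omega
  · unfold least
    rw [if_neg (by omega), if_neg (by omega)]
    exact (h4 he).1

end Pool.Agent.Results.MP_d9d598_co.SmallParts
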